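import Mathlib
import Pool.Agent.Q8.HK.Rings

/-!
# Rational cohomology algebras of derived equivalent hyper-Kähler varieties

The input consists of known theorems, collected in the structures `Coh` (the cohomology of a
projective hyper-Kähler variety: Beauville, Bogomolov, Fujiki, Verbitsky, Looijenga–Lunts,
Hodge index theorem) and `DerEq` (the action of a derived equivalence on cohomology: Mukai,
Orlov, Căldăraru, Calaque–Rossi–Van den Bergh).
-/

set_option autoImplicit false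

open Pool.Agent.Q8.HK

namespace Pool.Agent.Results.MP_d3d358_ag.RationalAlgebras

theorem result {n : ℕ} {A V B U : Type}
    [Ring A] [Algebra ℂ A] [AddCommGroup V] [Module ℂ V]
    [Ring B] [Algebra ℂ B] [AddCommGroup U] [Module ℂ U]
    -- the cohomology of `X` and of `Y`, and a derived equivalence
    (X : Coh n A V) (Y : Coh n B U) (D : DerEq X Y) :
    -- the rational cohomology algebras are isomorphic, compatibly with the Hodge structures
    (∃ G : A ≃ₐ[ℂ] B, RatIso X Y G ∧ (∀ x, G (X.eta x) = Y.eta (G x)) ∧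
      -- and with the Frobenius structures up to a rational square
      ((∀ x y, Y.mukai (D.Φ x) (D.Φ y) = X.mukai x y) →
        ∃ r : ℚ, r ≠ 0 ∧ ∀ x, Y.int (G x) = (r : ℂ) ^ 2 * X.int x)) ∧
    -- Frobenius algebras
    ((∀ x y, Y.mukai (D.Φ x) (D.Φ y) = X.mukai x y) →
      -- `n` odd: only the Fujiki constants can obstruct
      (Odd n →
        ((∃ u, u ≠ 0 ∧ IsRat Y.b (Y.i u) ∧ Y.q u u = 0) →
          (FrobIso X Y ↔ ∃ μ : ℚ, X.c = μ ^ n * Y.c)) ∧
        ((∀ j, Even (Y.d j)) → (HodgeFrobIso X Y ↔ ∃ μ : ℚ, X.c = μ ^ n * Y.c))) ∧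
      -- `b₂ = p` odd: only the Fujiki constants and the discriminants can obstruct
      (∀ p : ℕ, Odd p → ∀ (e : Module.Basis (Fin p) ℂ V) (e' : Module.Basis (Fin p) ℂ U),
        (∀ j, IsRat X.b (X.i (e j))) → (∀ j, IsRat Y.b (Y.i (e' j))) →
        ((∃ u, u ≠ 0 ∧ IsRat Y.b (Y.i u) ∧ Y.q u u = 0) →
          (FrobIso X Y ↔ ∃ μ s : ℚ, s ≠ 0 ∧ X.c = μ ^ n * Y.c ∧
            (μ : ℂ) * X.disc e * Y.disc e' = (s : ℂ) ^ 2)) ∧
        ((∀ j, Even (Y.d j)) →
          (HodgeFrobIso X Y ↔ ∃ μ s : ℚ, s ≠ 0 ∧ X.c = μ ^ n * Y.c ∧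
            (μ : ℂ) * X.disc e * Y.disc e' = (s : ℂ) ^ 2)))) := by
  obtain ⟨G, hG, hH, hm⟩ := D.rings
  refine ⟨⟨G, hG, hH, hm⟩, fun hmuk => ?_⟩
  obtain ⟨r, hr0, hr⟩ := hm hmuk
  exact ⟨fun hn => frob_odd_n hG hH hr0 hr hn,
    fun p hp e e' he he' => frob_odd_b hG hH hr hp e he e' he'⟩

end Pool.Agent.Results.MP_d3d358_ag.RationalAlgebras
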